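import Pool.Agent.P.MP_7c03a7_pr.S.Main

/-! Long range percolation on a countable group: isoperimetric dimension greater than one makes
the series `∑ 1 / (n I(n))` of the isoperimetric profile converge, and convergence of that series
implies a finite critical parameter. -/

namespace Pool.Agent.Results.MP_7c03a7_pr.SummableProfile

open Pool.Agent.P.MP_7c03a7_pr

theorem result {Γ : Type*} [Group Γ] [Countable Γ] (μ : PMF Γ) (hμ : ∀ g, μ g⁻¹ = μ g)
    (_hgen : Subgroup.closure μ.support = ⊤) :
    (1 < isoDim μ → profileSum μ < ⊤) ∧ (profileSum μ < ⊤ → lambdaC μ hμ < ⊤) :=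
  ⟨S.profileSum_lt_top_of_dim μ, S.lambdaC_lt_top μ hμ⟩

end Pool.Agent.Results.MP_7c03a7_pr.SummableProfile
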